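import Pool.Agent.Lib.MP_5d9c5f_lc.Poly

/-!
# Orienting a mixed graph for one path and two arc-disjoint paths is polynomial

There is a deterministic polynomial-time algorithm which decides whether a mixed graph has an
orientation containing a directed `s₁`-`t₁` path and two arc-disjoint directed `s₂`-`t₂` paths,
and which finds such an orientation when one exists.

The algorithm repeatedly orients an undirected edge whenever one of its two directions would
destroy the obvious relaxation (an `s₁`-`t₁` path of the mixed graph, and two edge-disjoint
`s₂`-`t₂` paths of the mixed graph).  The main theorem behind it (`Stable.orient`) says that if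
no edge is forced in this sense then a suitable orientation exists.
-/

namespace Pool.Agent.Results.MP_5d9c5f_lc.OnePathTwoPathsInP

open Pool.Agent.PolyTime Pool.Agent.MP_5d9c5f

/-- The search problem and the decision problem are solvable in polynomial time by
deterministic Turing machines (and the encodings used are injective). -/
theorem result :
    Function.Injective (encode : MixedInput → List Bool) ∧
    Function.Injective (encode : Option (List (Vtx × Vtx)) → List Bool) ∧
    (∃ solve : MixedInput → Option (List (Vtx × Vtx)),
      Nonempty (Turing.TM2ComputableInPolyTime encode encode solve) ∧
      (∀ I as, solve I = some as → IsSolution I as) ∧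
      (∀ I, solve I = none → ∀ as, ¬ IsSolution I as)) ∧
    (∃ dec : MixedInput → Bool,
      Nonempty (Turing.TM2ComputableInPolyTime encode encode dec) ∧
      ∀ I, dec I = true ↔ ∃ as, IsSolution I as) := by
  refine ⟨encode_injective, encode_injective, ⟨solve, Pool.Agent.PolyTime.PT.tm2 PT.solve, solve_some, ?_⟩,
    ⟨decide', Pool.Agent.PolyTime.PT.tm2 PT.decide', decide'_iff⟩⟩
  intro I h as has
  exact solve_none I h ⟨as, has⟩

end Pool.Agent.Results.MP_5d9c5f_lc.OnePathTwoPathsInP
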